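import Pool.Agent.H330.MU

/-!
# Bounded multiplicities of pointed fusion systems of blocks: primitive permutation groups with three
normal subgroups suffice

Let `k` be an algebraically closed field of characteristic `p`, `G` a finite group, `e` a block of
`kG` with defect group `D` and source idempotent `i`. The objects of the pointed fusion system of the
block are the local points `γ` of the subgroups `P ≤ D` on the source algebra `i kG i`, and for
`Q ≤ P` the multiplicity `m (Q_δ, P_γ)` is the largest number of pairwise orthogonal idempotents in
`δ` below an idempotent in `γ`.

Let `q > 7` be a prime with `p ∣ q + 1` (and `4 ∣ q + 1` if `p = 2`); there are infinitely many such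
`q`. Let `X_n` be the permutational wreath product of `PSL(2, q)` and the alternating group `A_n` in
its action on the `n (n - 1)` ordered pairs of distinct points.

(1) For `n ≥ 5` the group `X_n` has exactly three normal subgroups `1 < M < X_n`, where
`M = PSL(2, q) ^ (n (n - 1))` and `X_n / M = A_n`, and `X_n` is isomorphic to a primitive
permutation group.

(2) For every block of a finite group `G` with defect group `D` and for all `n ≥ |G| ^ 2 + 3 |G|`,
there is a block of `X_n` with defect group isomorphic to `D` such that every multiplicity of the
first one is at most some multiplicity of the second one.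

(3) So for every `p`-group `P` the following are equivalent: the multiplicities for the blocks of all
finite groups with defect groups isomorphic to `P` are bounded; this is true for the blocks of the
groups `X_n`, `n` in an infinite set; this is true for the blocks of the finite primitive permutation
groups which have exactly three normal subgroups.

The idea of the proof is described in `Pool/Agent/Results/MP_cea1f0_al/ThreeNormalSubgroups.lean`: the
map `a ↦ ε a` is an isomorphism of the source algebras, and it preserves local idempotents because
`v g` centralises `j(Q)` only if `g` centralises `Q`.
-/

set_option autoImplicit false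

open Pool.Agent.H373.MN Pool.Agent.H330.PU Pool.Agent.H330.MU

theorem Pool.Agent.Results.MP_5b9a11_al.ThreeNormalSubgroups.result (p : ℕ) [Fact p.Prime] :
    (∀ N : ℕ, ∃ q, N < q ∧ Good p q) ∧
    ∀ q, Good p q →
      (∀ n, 5 ≤ n → ThreeNormal p q n (XP n q) ∧ IsPrimitiveGroup (XP n q)) ∧
      ∀ (k : Type) [Field k] [IsAlgClosed k] [CharP k p],
        (∀ (s : Src p k) (n : ℕ), Nat.card s.G ^ 2 + 3 * Nat.card s.G ≤ n →
          ∃ t : Src p k, Nonempty (t.G ≃* XP n q) ∧ Nonempty (s.D ≃* t.D) ∧
            ∀ m, HasMult s m → HasMult t m) ∧
        ∀ (P : Type) [Group P],
          (∀ S : Set ℕ, S.Infinite → (BddMult p k P All ↔ BddMult p k P (InXP q S))) ∧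
          (BddMult p k P All ↔ BddMult p k P PrimitiveThree) :=
  main p
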